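import Pool.Agent.H603R2.EP.Final

/-!
# MP_3cd67d_lc: EPDP_k is NP-hard for every fixed `k ≥ 13`
-/

namespace Pool.Agent.Results.MP_3cd67d_lc.EdgeDisjointNPHard

open Pool.Agent.NPC Pool.Agent.H673R2 Pool.Agent.H673R2.Pdp Pool.Agent.H603R2.EP

/-- The data of an instance of EPDP: the number of vertices (the vertices are `0, …, N-1`), the list
of the arcs of `D`, the list `(r_1, s_1), …, (r_k, s_k)` of the terminal pairs, and the list of the
pairs in `F` (the indices are `0, …, k-1`). -/
abbrev Inst : Type := ℕ × List (ℕ × ℕ) × List (ℕ × ℕ) × List (ℕ × ℕ)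

/-- `I` is an instance of EPDP`_k`: every arc joins two different vertices, the digraph has a plane
(straight-line) drawing, there are `k` pairs of terminals, all of them vertices, and `F` consists of
pairs of different indices of terminal pairs. -/
def IsInst (k : ℕ) (I : Inst) : Prop :=
  (∀ a ∈ I.2.1, a.1 < I.1 ∧ a.2 < I.1 ∧ a.1 ≠ a.2) ∧
    (∃ pos : ℕ → ℝ × ℝ, IsPlaneDrawing I.1 I.2.1 pos) ∧
    I.2.2.1.length = k ∧
    (∀ t ∈ I.2.2.1, t.1 < I.1 ∧ t.2 < I.1) ∧
    ∀ e ∈ I.2.2.2, e.1 < k ∧ e.2 < k ∧ e.1 ≠ e.2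

/-- `P` is a solution of the instance `I`: the list of the `k` directed paths, the `i`-th one from
`r_i` to `s_i`, and the `i`-th and the `j`-th have no common arc whenever `{i, j}` is in `F`. -/
def Sol (I : Inst) (P : List (List ℕ)) : Prop := IsEdgeSolution I.2.1 I.2.2.1 I.2.2.2 P

/-- For every fixed `k ≥ 13`, the edge-disjoint partially disjoint paths problem EPDP`_k` in planar
digraphs is `NP`-hard. So if `P ≠ NP`, then for every `k ≥ 13` no polynomial-time algorithm decides
whether there are such paths, and no polynomial-time algorithm finds such paths or reports that there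
are none. -/
theorem result : ∀ k : ℕ, 13 ≤ k →
    NPHardOn (IsInst k) (fun I => ∃ P, Sol I P) ∧
    (PneNP → ¬ ∃ f : List Bool → List Bool, PolyTime f ∧
      ∀ I, IsInst k I → ((∃ P, Sol I P) ↔ f (bits I) = [true])) ∧
    (PneNP → ¬ ∃ f : List Bool → List Bool, PolyTime f ∧ SolvesSearch (IsInst k) Sol f) := by
  intro k hk
  have h : NPHardOn (IsInst k) (fun I => ∃ P, Sol I P) := by
    refine npHardOn_of hardPr_SAT3b (f := inst k) (p_inst k) ?_ ?_
    · rintro φ ⟨_, _, hne⟩
      have hlen : 1 ≤ φ.length := List.length_pos_iff.2 hne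
      exact ⟨arcs_ok (by omega), ⟨_, isPlaneDrawing (bord (by omega))⟩, terms_length hk,
        terms_ok (by omega), FF_ok hk⟩
    · rintro φ ⟨hd, hb, hne⟩
      exact sol_iff hd hb hne hk
  exact ⟨h, no_decide h, no_search h⟩

end Pool.Agent.Results.MP_3cd67d_lc.EdgeDisjointNPHard
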